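import Pool.Agent.PFJ.Stmts
import Pool.Agent.Helper60_PFS.Lim0
import Pool.Agent.Helper60_PFS.Simp

/-!
Row ZSS of the squad PFB: the zoom step for boxes.
-/

set_option autoImplicit false

open Matrix Filter Topology

namespace Pool.Agent.PFJ.H77

open Pool.Agent.PFS

/-- a box stays a box if the vertices are rescaled -/
theorem box_scale {n K : ℕ} {C : Set (V n)} {Γ : Subgroup (GL (Fin n) ℝ)} (h : CC C Γ)
    {L : Fin K → Submodule ℝ (V n)} {w : Fin K → V n} {β : Fin K → Fin K} (hB : Box C Γ L w β)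
    (c : Fin K → ℝ) (hc : ∀ i, 0 < c i) : Box C Γ L (fun i => c i • w i) β where
  pes := (Pool.Agent.PFS.H60.elm n C Γ h (Fin K) w hB.pes).1 c hc
  mem := fun i => (L (β i)).smul_mem _ (hB.mem i)
  comp := hB.comp
  bot := hB.bot
  one := by
    intro i hi x hx
    obtain ⟨d, hd⟩ := hB.one i hi x hx
    refine ⟨d / c i, ?_⟩
    rw [hd, smul_smul, div_mul_cancel₀ _ (hc i).ne']
  two := hB.two
  three := hB.three

/-- a sequence with values in a finite type is constant on a subsequence -/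
theorem const_subseq {α : Type} [Finite α] (b : ℕ → α) :
    ∃ (φ : ℕ → ℕ) (c : α), StrictMono φ ∧ ∀ m, b (φ m) = c := by
  have hfr : ∃ c, ∃ᶠ m in atTop, b m = c := by
    by_contra hne
    have h1 : ∀ c, ∀ᶠ m in atTop, ¬ b m = c := by
      intro c
      by_contra h2
      exact hne ⟨c, h2⟩
    have h2 : ∀ᶠ m in atTop, ∀ c, ¬ b m = c := eventually_all.mpr h1
    obtain ⟨m, hm⟩ := h2.exists
    exact hm _ rfl
  obtain ⟨c, hc⟩ := hfr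
  obtain ⟨φ, hφ, hb⟩ := extraction_of_frequently_atTop hc
  exact ⟨φ, c, hφ, hb⟩

theorem zss (himg : ImgStmt) (hstc : StcStmt) (hprb : PrbStmt) (hbac : BacStmt)
    (hblm : BlmStmt) (hnsf : NsfStmt) : ZssStmt := by
  intro n C Γ h K hK hmax P hP L w β L' x β' u M₁ M₂ hM2 hB hPL hB' hPL' hfin hn1 hn2
  obtain ⟨e1, e2, -, -, e5⟩ := Pool.Agent.PFS.H60.elm n C Γ h (Fin K) w hB.pes
  obtain ⟨im1, -, -, -, im5, -⟩ := himg n
  obtain ⟨ns1, -, -, ns4, ns5⟩ := hnsf n C Γ h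
  -- adapted simplices through the near points
  choose q₀ hq₀mem hq₀lo hq₀up using hn1
  have hq₀C : ∀ m, q₀ m ∈ C := fun m => h.mem_of_le (e5 (u m)).1 (hq₀lo m)
  have hex : ∀ m, ∃ w' : Fin K → V n, Box C Γ (L' m) w' (β' m) ∧ ∑ i, w' i = q₀ m := fun m =>
    hprb n C Γ h K hK (L' m) (x m) (β' m) (hB' m) (hP.full _ (hPL' m))
      (hstc n C Γ h K hK hmax (L' m) (x m) (β' m) (hB' m)) (q₀ m) (hq₀mem m) (hq₀C m)
  choose y hyB hysum using hex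
  -- zoom
  obtain ⟨φ1, g, s, q, hφ1, hg, hs, hq, hlim⟩ :=
    Pool.Agent.PFS.H60.zom n C Γ h (fun m => pt w (u m)) (fun m => (e5 (u m)).1)
      (fun m => (e5 (u m)).2)
  have hlow : ∀ m, s m • act (g m) (q₀ (φ1 m)) - s m • act (g m) (pt w (u (φ1 m)))
      ∈ closure C := by
    intro m
    rw [← smul_sub, ← CC.act_sub]
    exact (h.sact_cl_iff (hg m) (hs m)).mpr (hq₀lo (φ1 m))
  have hupp : ∀ m, M₁ • (s m • act (g m) (pt w (u (φ1 m)))) - s m • act (g m) (q₀ (φ1 m))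
      ∈ closure C := by
    intro m
    rw [smul_comm, ← smul_sub, ← CC.act_smul, ← CC.act_sub]
    exact (h.sact_cl_iff (hg m) (hs m)).mpr (hq₀up (φ1 m))
  obtain ⟨B, hBpos, hnorm⟩ := h.normal
  obtain ⟨R, hR⟩ : ∃ R : ℝ, ∀ m, ‖s m • act (g m) (pt w (u (φ1 m)))‖ ≤ R := by
    obtain ⟨R, hR⟩ := hlim.norm.bddAbove_range
    exact ⟨R, fun m => hR ⟨m, rfl⟩⟩
  have hbound : ∀ m, s m • act (g m) (q₀ (φ1 m))
      ∈ Metric.closedBall (0 : V n) (B * (|M₁| * R)) := by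
    intro m
    rw [Metric.mem_closedBall, dist_zero_right]
    have hcl : s m • act (g m) (q₀ (φ1 m)) ∈ closure C := by
      refine h.cl_of_le (x := s m • act (g m) (pt w (u (φ1 m)))) ?_ (hlow m)
      exact (h.sact_cl_iff (hg _) (hs _)).mpr (subset_closure (e5 _).1)
    refine (hnorm _ _ hcl (hupp m)).trans ?_
    rw [norm_smul, Real.norm_eq_abs]
    exact mul_le_mul_of_nonneg_left (mul_le_mul_of_nonneg_left (hR m) (abs_nonneg _)) hBpos.le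
  obtain ⟨Q, -, φ2, hφ2, hQ⟩ := (isCompact_closedBall (0 : V n) (B * (|M₁| * R))).tendsto_subseq
    hbound
  have hP2 : Tendsto (fun m => s (φ2 m) • act (g (φ2 m)) (pt w (u (φ1 (φ2 m))))) atTop (𝓝 q) :=
    hlim.comp hφ2.tendsto_atTop
  have hQC : Q ∈ C := by
    refine h.mem_of_le hq ?_
    refine isClosed_closure.mem_of_tendsto (hQ.sub hP2) (Eventually.of_forall fun m => ?_)
    exact hlow (φ2 m)
  -- constant pattern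
  obtain ⟨φ3, βo, hφ3, hβo⟩ := const_subseq (fun m => β' (φ1 (φ2 m)))
  have hP3 : Tendsto (fun m => s (φ2 (φ3 m)) • act (g (φ2 (φ3 m)))
      (pt w (u (φ1 (φ2 (φ3 m)))))) atTop (𝓝 q) := hP2.comp hφ3.tendsto_atTop
  have hQ3 : Tendsto (fun m => s (φ2 (φ3 m)) • act (g (φ2 (φ3 m)))
      (q₀ (φ1 (φ2 (φ3 m))))) atTop (𝓝 Q) := hQ.comp hφ3.tendsto_atTop
  -- first boxes
  have ha : ∀ m, Box C Γ (fun a => img (g (φ2 (φ3 m))) (L a))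
      (fun i => s (φ2 (φ3 m)) • act (g (φ2 (φ3 m)))
        ((2 : ℝ) ^ (u (φ1 (φ2 (φ3 m))) i) • w i)) β := by
    intro m
    exact hbac n C Γ h K L _ β (box_scale h hB (fun i => (2 : ℝ) ^ (u (φ1 (φ2 (φ3 m))) i))
      (fun i => by positivity)) (g (φ2 (φ3 m))) (hg _) (s (φ2 (φ3 m))) (hs _)
  have hasum : ∀ m, ∑ i, s (φ2 (φ3 m)) • act (g (φ2 (φ3 m)))
        ((2 : ℝ) ^ (u (φ1 (φ2 (φ3 m))) i) • w i)
      = s (φ2 (φ3 m)) • act (g (φ2 (φ3 m))) (pt w (u (φ1 (φ2 (φ3 m))))) := by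
    intro m
    rw [← Finset.smul_sum, ← CC.act_sum]
    rfl
  obtain ⟨φ4, Lo, wo, hφ4, hwo, hwosum, -, hLoS, hLof, hBo⟩ := hblm n C Γ h K hK
    (fun m a => img (g (φ2 (φ3 m))) (L a))
    (fun m i => s (φ2 (φ3 m)) • act (g (φ2 (φ3 m)))
        ((2 : ℝ) ^ (u (φ1 (φ2 (φ3 m))) i) • w i)) β q ha hq
    (by simp only [hasum]; exact hP3)
  -- second boxes
  have hb : ∀ m, Box C Γ (fun a => img (g (φ2 (φ3 (φ4 m)))) (L' (φ1 (φ2 (φ3 (φ4 m)))) a))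
      (fun i => s (φ2 (φ3 (φ4 m))) • act (g (φ2 (φ3 (φ4 m))))
        (y (φ1 (φ2 (φ3 (φ4 m)))) i)) βo := by
    intro m
    have h1 := hbac n C Γ h K (L' (φ1 (φ2 (φ3 (φ4 m))))) (y (φ1 (φ2 (φ3 (φ4 m)))))
      (β' (φ1 (φ2 (φ3 (φ4 m))))) (hyB _) (g (φ2 (φ3 (φ4 m)))) (hg _) (s (φ2 (φ3 (φ4 m)))) (hs _)
    rw [show β' (φ1 (φ2 (φ3 (φ4 m)))) = βo from hβo (φ4 m)] at h1
    exact h1
  have hbsum : ∀ m, ∑ i, s (φ2 (φ3 (φ4 m))) • act (g (φ2 (φ3 (φ4 m))))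
        (y (φ1 (φ2 (φ3 (φ4 m)))) i)
      = s (φ2 (φ3 (φ4 m))) • act (g (φ2 (φ3 (φ4 m)))) (q₀ (φ1 (φ2 (φ3 (φ4 m))))) := by
    intro m
    rw [← Finset.smul_sum, ← CC.act_sum, hysum]
  obtain ⟨φ5, Lo', wo', hφ5, hwo', hwosum', -, hLoS', hLof', hBo'⟩ := hblm n C Γ h K hK
    (fun m a => img (g (φ2 (φ3 (φ4 m)))) (L' (φ1 (φ2 (φ3 (φ4 m)))) a))
    (fun m i => s (φ2 (φ3 (φ4 m))) • act (g (φ2 (φ3 (φ4 m))))
        (y (φ1 (φ2 (φ3 (φ4 m)))) i)) βo Q hb hQC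
    (by simp only [hbsum]; exact hQ3.comp hφ4.tendsto_atTop)
  have hqo : q ∈ ⨆ a, Lo a := by
    rw [← hwosum]
    exact Submodule.sum_mem _ fun i _ => le_iSup Lo (β i) (hBo.mem i)
  have hQo : Q ∈ ⨆ a, Lo' a := by
    rw [← hwosum']
    exact Submodule.sum_mem _ fun i _ => le_iSup Lo' (βo i) (hBo'.mem i)
  have hPLo : P (⨆ a, Lo a) := by
    refine hP.closed (fun m => ⨆ a, img (g (φ2 (φ3 (φ4 m)))) (L a)) _ (fun m => ?_) hLoS hLof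
      ⟨q, hqo, hq⟩
    show P (⨆ a, img (g (φ2 (φ3 (φ4 m)))) (L a))
    rw [← im5]
    exact hP.act _ hPL _ (hg _)
  have hPLo' : P (⨆ a, Lo' a) := by
    refine hP.closed (fun m => ⨆ a, img (g (φ2 (φ3 (φ4 (φ5 m)))))
      (L' (φ1 (φ2 (φ3 (φ4 (φ5 m))))) a)) _ (fun m => ?_) hLoS' hLof' ⟨Q, hQo, hQC⟩
    show P (⨆ a, img (g (φ2 (φ3 (φ4 (φ5 m))))) (L' (φ1 (φ2 (φ3 (φ4 (φ5 m))))) a))
    rw [← im5]
    exact hP.act _ (hPL' _) _ (hg _)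
  have hfin0 : Module.finrank ℝ ↥(⨆ a, Lo a) = Module.finrank ℝ ↥(⨆ a, L a) := by
    have h1 : Module.finrank ℝ ↥(⨆ a, img (g (φ2 (φ3 (φ4 0)))) (L a)) =
      Module.finrank ℝ ↥(⨆ a, Lo a) := hLof 0
    rw [← h1, ← im5, im1]
  have hfin1 : Module.finrank ℝ ↥(⨆ a, Lo' a) = Module.finrank ℝ ↥(⨆ a, L a) := by
    have h1 : Module.finrank ℝ ↥(⨆ a, img (g (φ2 (φ3 (φ4 (φ5 0)))))
      (L' (φ1 (φ2 (φ3 (φ4 (φ5 0))))) a)) = Module.finrank ℝ ↥(⨆ a, Lo' a) := hLof' 0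
    rw [← h1, ← im5, im1, hfin]
  have near_iff : ∀ (m : ℕ) (M : ℝ) (p : V n),
      NearS C M (⨆ a, img (g (φ2 (φ3 (φ4 (φ5 m))))) (L' (φ1 (φ2 (φ3 (φ4 (φ5 m))))) a))
        (s (φ2 (φ3 (φ4 (φ5 m)))) • act (g (φ2 (φ3 (φ4 (φ5 m))))) p) ↔
      NearS C M (⨆ a, L' (φ1 (φ2 (φ3 (φ4 (φ5 m))))) a) p := by
    intro m M p
    rw [← im5]
    exact ns1 M _ p (g (φ2 (φ3 (φ4 (φ5 m))))) (hg _) _ (hs _)
  have hP5 : Tendsto (fun m => s (φ2 (φ3 (φ4 (φ5 m)))) • act (g (φ2 (φ3 (φ4 (φ5 m)))))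
      (pt w (u (φ1 (φ2 (φ3 (φ4 (φ5 m)))))))) atTop (𝓝 q) :=
    hP3.comp (hφ4.comp hφ5).tendsto_atTop
  have hwo5 : ∀ i, Tendsto (fun m => s (φ2 (φ3 (φ4 (φ5 m)))) • act (g (φ2 (φ3 (φ4 (φ5 m)))))
      ((2 : ℝ) ^ (u (φ1 (φ2 (φ3 (φ4 (φ5 m))))) i) • w i)) atTop (𝓝 (wo i)) := fun i =>
    (hwo i).comp hφ5.tendsto_atTop
  refine ⟨fun m => φ1 (φ2 (φ3 (φ4 (φ5 m)))), Lo, wo, Lo', wo', βo,
    hφ1.comp (hφ2.comp (hφ3.comp (hφ4.comp hφ5))), hBo, hBo', hPLo, hPLo',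
    hfin1.trans hfin0.symm, ?_, ?_⟩
  · intro heq
    have hev := ns5 M₂ (fun m => ⨆ a, img (g (φ2 (φ3 (φ4 (φ5 m)))))
      (L' (φ1 (φ2 (φ3 (φ4 (φ5 m))))) a)) (⨆ a, Lo' a) _ q hLoS' hq (heq ▸ hqo) hP5 hM2
    obtain ⟨m, hm⟩ := hev.exists
    exact hn2 _ ((near_iff m M₂ _).mp hm)
  · intro v M hfr
    have hlimv : Tendsto (fun m => s (φ2 (φ3 (φ4 (φ5 m)))) • act (g (φ2 (φ3 (φ4 (φ5 m)))))
        (pt w (fun i => u (φ1 (φ2 (φ3 (φ4 (φ5 m))))) i + v i))) atTop (𝓝 (pt wo v)) := by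
      have h1 : Tendsto (fun m => ∑ i, (2 : ℝ) ^ (v i) •
          (s (φ2 (φ3 (φ4 (φ5 m)))) • act (g (φ2 (φ3 (φ4 (φ5 m)))))
            ((2 : ℝ) ^ (u (φ1 (φ2 (φ3 (φ4 (φ5 m))))) i) • w i))) atTop (𝓝 (pt wo v)) :=
        tendsto_finsetSum _ fun i _ => (hwo5 i).const_smul _
      refine h1.congr fun m => ?_
      unfold pt
      rw [CC.act_sum, Finset.smul_sum]
      refine Finset.sum_congr rfl fun i _ => ?_
      rw [CC.act_smul, CC.act_smul, smul_smul, smul_smul, smul_smul]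
      congr 1
      rw [zpow_add₀ (by norm_num : (2 : ℝ) ≠ 0)]
      ring
    refine ns4 M (fun m => ⨆ a, img (g (φ2 (φ3 (φ4 (φ5 m)))))
      (L' (φ1 (φ2 (φ3 (φ4 (φ5 m))))) a)) (⨆ a, Lo' a) _ (pt wo v) hLoS' (fun m => ?_) hlimv ?_
    · exact (h.sact_mem_iff (hg _) (hs _)).mpr (e5 _).1
    · exact hfr.mono fun m hm => (near_iff m M _).mpr hm

end Pool.Agent.PFJ.H77
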